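import Pool.Agent.Helper59.AN.Goals2
import Pool.Agent.Helper13.NU.SYN
import Pool.Agent.Helper83.NU.SYI

/-! # MP_4137ca_lc: packet SYC -/

noncomputable section

namespace AN.PkSYC

open Pool.Agent.Helper97.Ku NU

theorem injS (a b : ℕ) :
    Dfn (fun _ E w => Inj E (fun x => Sub E x (w a)) (fun u => E u (w b)))
      (fun _ _ w => injV (fun x => subV x (w a)) (fun u => u.mem (w b))) := by
  refine NU.PkSYI.syi (max a b + 1) (fun _ E w y => Sub E y (w a)) (fun _ E w M => E M (w b))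
    (fun _ _ w y => subV y (w a)) (fun _ _ w M => M.mem (w b)) ?_ ?_ ?_ ?_
  · intro N E w w' h
    have h1 := h a (by omega)
    have h2 := h b (by omega)
    constructor
    · funext y; rw [h1]
    · funext y; rw [h2]
  · intro L _ w w' h
    have h1 := h a (by omega)
    have h2 := h b (by omega)
    constructor
    · funext y; rw [h1]
    · funext y; rw [h2]
  · intro k
    exact Dfn.sub k a (max k a + 1) (by omega) (by omega)
  · intro k
    exact Dfn.mem k b

theorem syc (sya : AN.G_SYA) (sys : AN.G_SYS) : AN.G_SYC :=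
  Dfn.congr (Dfn.ex 0 (Dfn.and NU.PkSYN.omD (Dfn.all 1 (Dfn.imp (Dfn.neg (injS 0 1))
        (Dfn.all 2 (Dfn.ex 3 (Dfn.and (sya 0 3) (Dfn.ex 4 (Dfn.and (sys.2 0 4)
          (Dfn.and (Dfn.all 5 (Dfn.imp (Dfn.mem 5 1)
            (Dfn.ex 6 (Dfn.and (Dfn.mem 6 4) (sys.1 0 2 5 6)))))
            (Dfn.neg (Dfn.mem 3 4))))))))))))
    (fun N E w => by simp [PhiC])
    (fun L _ w => by simp [phiCV, exV])

end AN.PkSYC
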