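import Pool.Agent.Helper59.AN.Goals

noncomputable section

namespace AN.PkX12

open AN Pool.Agent.Helper97.Ku NU BSet

open Classical in
theorem x12 : G_X12 := by
  intro X _ R I p i x s hps
  refine ⟨fun _ => ?_, fun hone => ?_⟩
  · let lst : Vx I X → List ℕ := fun v => match v with
      | .a _ s _ => s
      | .g _ _ s => s
    let f1 : Vx I X → ℕ := fun v => (lst v).headD 0
    let f2 : Vx I X → ℕ := fun v => ((lst v).tail).headD 0
    obtain ⟨n, hn⟩ := Infinite.exists_notMem_finset (p.1.image f1 ∪ p.1.image f2)
    have h1 : ∀ v ∈ p.1, lst v ≠ n :: s := by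
      intro v hv h
      apply hn
      rw [Finset.mem_union]
      left
      rw [Finset.mem_image]
      exact ⟨v, hv, by show (lst v).headD 0 = n; rw [h]; rfl⟩
    have h2 : ∀ v ∈ p.1, ∀ m, lst v ≠ m :: n :: s := by
      intro v hv m h
      apply hn
      rw [Finset.mem_union]
      right
      rw [Finset.mem_image]
      exact ⟨v, hv, by show ((lst v).tail).headD 0 = n; rw [h]; rfl⟩
    have key1 : ∀ w ∈ p.1, ¬ Cf R (Vx.g i x (n :: s)) w := by
      intro w hw hC
      cases w with
      | a i' s' σ =>
        obtain ⟨-, h3, -⟩ := hC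
        exact h1 _ hw h3.symm
      | g i' x' s' =>
        obtain ⟨rfl, rfl, h3 | h3⟩ := hC
        · obtain ⟨⟨m, hm⟩, -⟩ := h3
          exact h2 _ hw m hm
        · obtain ⟨⟨m, hm⟩, -⟩ := h3
          have : s = s' := (List.cons.inj hm).2
          subst this
          exact hps hw
    have key2 : ∀ w ∈ p.1, ¬ Cf R w (Vx.g i x (n :: s)) := by
      intro w hw hC
      cases w with
      | a i' s' σ =>
        obtain ⟨-, h3, -⟩ := hC
        exact h1 _ hw h3
      | g i' x' s' =>
        obtain ⟨rfl, rfl, h3 | h3⟩ := hC
        · obtain ⟨⟨m, hm⟩, -⟩ := h3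
          have : s = s' := (List.cons.inj hm).2
          subst this
          exact hps hw
        · obtain ⟨⟨m, hm⟩, -⟩ := h3
          exact h2 _ hw m hm
    have key3 : ¬ Cf R (Vx.g i x (n :: s)) (Vx.g i x (n :: s)) := by
      rintro ⟨-, -, h3 | h3⟩
      · obtain ⟨⟨m, hm⟩, -⟩ := h3
        have := congrArg List.length hm
        simp at this
      · obtain ⟨⟨m, hm⟩, -⟩ := h3
        have := congrArg List.length hm
        simp at this
    refine ⟨n, ⟨insert (Vx.g i x (n :: s)) p.1, ?_⟩, ?_, ?_, ?_⟩
    · intro v hv w hw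
      rw [Finset.mem_insert] at hv hw
      rcases hv with rfl | hv
      · rcases hw with rfl | hw
        · exact key3
        · exact key1 w hw
      · rcases hw with rfl | hw
        · exact key2 v hv
        · exact p.2 v hv w hw
    · rw [Cd.le_def]
      exact Finset.subset_insert _ _
    · exact Finset.mem_insert_self _ _
    · intro v hv
      rcases Finset.mem_insert.1 hv with h | h
      · exact Or.inr h
      · exact Or.inl h
  · have hd : ∀ v : Vx I X, ∃ m : ℕ, ∀ i' x' s', v = Vx.g i' x' s' → x' ≠ x →
        ¬ (m ∈ R.r x' ↔ m ∈ R.r x) := by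
      intro v
      cases v with
      | a i' s' σ => exact ⟨0, fun _ _ _ h => by cases h⟩
      | g i' x' s' =>
        by_cases hx : x' = x
        · refine ⟨0, fun j y t h hy => ?_⟩
          injection h with h4 h5 h6
          exact absurd (h5 ▸ hx) hy
        · have : R.r x' ≠ R.r x := fun h => hx (R.inj h)
          have : ∃ m, ¬ (m ∈ R.r x' ↔ m ∈ R.r x) := by
            by_contra hcon
            push Not at hcon
            exact this (Set.ext hcon)
          obtain ⟨m, hm⟩ := this
          refine ⟨m, fun j y t h hy => ?_⟩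
          injection h with h4 h5 h6
          rw [← h5]
          exact hm
    choose d hd using hd
    set n := p.1.sup d + 1 with hn
    have hdn : ∀ v ∈ p.1, d v < n := fun v hv => Nat.lt_succ_of_le (Finset.le_sup hv)
    set σ : Finset ℕ := insert n ((Finset.range n).filter (fun m => m ∈ R.r x)) with hσ
    have hσm : ∀ m < n, (m ∈ σ ↔ m ∈ R.r x) := by
      intro m hm
      rw [hσ, Finset.mem_insert, Finset.mem_filter, Finset.mem_range]
      constructor
      · rintro (h | h)
        · omega
        · exact h.2
      · intro h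
        exact Or.inr ⟨hm, h⟩
    have hnσ : n ∈ σ := Finset.mem_insert_self _ _
    have hσle : ∀ m ∈ σ, m ≤ n := by
      intro m hm
      rw [hσ, Finset.mem_insert, Finset.mem_filter, Finset.mem_range] at hm
      omega
    have hL : LastN σ n := ⟨hnσ, hσle⟩
    have hLu : ∀ n', LastN σ n' → n' = n := fun n' h =>
      le_antisymm (hσle _ h.1) (h.2 _ hnσ)
    have hcyl : CylS σ (R.r x) := ⟨n, hL, fun m hm => (hσm m hm).symm⟩
    have hno : ∀ i' x' s', Vx.g i' x' s' ∈ p.1 → CylS σ (R.r x') → x' = x := by
      intro i' x' s' hm hc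
      by_contra hx
      obtain ⟨n', hn', hc⟩ := hc
      rw [hLu n' hn'] at hc
      have h5 := hdn _ hm
      apply hd _ i' x' s' rfl hx
      rw [hc _ h5, hσm _ h5]
    have key1 : ∀ w ∈ p.1, ¬ Cf R (Vx.a i s σ) w := by
      intro w hw hC
      cases w with
      | a i' s' σ => exact hC
      | g i' x' s' =>
        obtain ⟨rfl, rfl, h3, h4⟩ := hC
        have := hno _ _ _ hw h4
        subst this
        exact hps hw
    have key2 : ∀ w ∈ p.1, ¬ Cf R w (Vx.a i s σ) := by
      intro w hw hC
      cases w with
      | a i' s' σ => exact hC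
      | g i' x' s' =>
        obtain ⟨rfl, rfl, h3, h4⟩ := hC
        have := hno _ _ _ hw h4
        subst this
        exact hps hw
    refine ⟨σ, hcyl, ⟨insert (Vx.a i s σ) p.1, ?_⟩, ?_, ?_, ?_⟩
    · intro v hv w hw
      rw [Finset.mem_insert] at hv hw
      rcases hv with rfl | hv
      · rcases hw with rfl | hw
        · exact fun h => h
        · exact key1 w hw
      · rcases hw with rfl | hw
        · exact key2 v hv
        · exact p.2 v hv w hw
    · rw [Cd.le_def]
      exact Finset.subset_insert _ _
    · exact Finset.mem_insert_self _ _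
    · intro v hv
      rcases Finset.mem_insert.1 hv with h | h
      · exact Or.inr h
      · exact Or.inl h

end AN.PkX12
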